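import Pool.Agent.KS6_11.HsLpp.Lattice

/-!
# The boundary weights are irrelevant uniformly in horizontal strips and in the parameter

Half-space exponential last passage percolation with critically scaled boundary. Replacing the
diagonal weights by an independent copy changes the passage values by `o(n ^ (1/3))`,
simultaneously for all pairs `u ≤ v` of the strip `- T n ≤ u.2`, `v.2 ≤ T n` of the half-space (of
arbitrary width, and arbitrarily close to each other), and uniformly in the rate `α` of the diagonal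
weights in the window `|α - 1/2| ≤ κ n ^ (-1/3)`.
-/

set_option autoImplicit false
open MeasureTheory ProbabilityTheory Filter Topology

namespace Pool.Agent.Results.MP_9957ef_pr.UniformInStrips

/-- The last passage value `W(u; v)`: the supremum of the weights of the up-right paths from `u` to
`v` in the half-space `{z | z.2 ≤ z.1}`, with both ends counted (it is used only for `u ≤ v`; if
there is no path, its value is `0`). -/
noncomputable def lpp (W : ℤ × ℤ → ℝ) (u v : ℤ × ℤ) : ℝ :=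
  sSup {w : ℝ | ∃ (m : ℕ) (π : ℕ → ℤ × ℤ), π 0 = u ∧ π m = v ∧
    (∀ k < m, π (k + 1) = π k + (1, 0) ∨ π (k + 1) = π k + (0, 1)) ∧
    (∀ k ≤ m, (π k).2 ≤ (π k).1) ∧ w = ∑ k ∈ Finset.range (m + 1), W (π k)}

/-- The field `X_α`: the diagonal entries are multiplied by `α⁻¹`. -/
noncomputable def scaleDiag (α : ℝ) (X : ℤ × ℤ → ℝ) (z : ℤ × ℤ) : ℝ :=
  if z.1 = z.2 then α⁻¹ * X z else X z

/-- The field with the diagonal entries replaced by the numbers `D i`. -/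
def replaceDiag (X : ℤ × ℤ → ℝ) (D : ℤ → ℝ) (z : ℤ × ℤ) : ℝ :=
  if z.1 = z.2 then D z.1 else X z

/-- The lattice point `u_n` for `u = (x, s)`. -/
noncomputable def pt (n : ℕ) (x s : ℝ) : ℤ × ℤ :=
  (⌊(n : ℝ) * s + (2 : ℝ) ^ ((5 : ℝ) / 3) * (n : ℝ) ^ ((2 : ℝ) / 3) * x⌋, ⌊(n : ℝ) * s⌋)

/-- The centering `h_n (u)` for `u = (x, s)`. -/
noncomputable def centering (n : ℕ) (x s : ℝ) : ℝ :=
  4 * (n : ℝ) * s + (2 : ℝ) ^ ((8 : ℝ) / 3) * (n : ℝ) ^ ((2 : ℝ) / 3) * x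

/-- The rescaled passage value `ℒ_n (u; v)`, `u = (x, s)`, `v = (y, t)`, of the field `W`. -/
noncomputable def rescaled (n : ℕ) (W : ℤ × ℤ → ℝ) (x s y t : ℝ) : ℝ :=
  (2 : ℝ) ^ (-(4 : ℝ) / 3) * (n : ℝ) ^ (-(1 : ℝ) / 3) *
    (lpp W (pt n x s) (pt n y t) - (centering n y t - centering n x s))

/-- The rate `α_n` of the diagonal weights. -/
noncomputable def rate (n : ℕ) (ρ : ℝ) : ℝ :=
  1 / 2 - (2 : ℝ) ^ (-(4 : ℝ) / 3) * ρ * (n : ℝ) ^ (-(1 : ℝ) / 3)

open Pool.Agent.H374 Pool.Agent.KS6_11.HsLpp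

lemma lpp_of_not {W : ℤ × ℤ → ℝ} {u v : ℤ × ℤ} (h : u.1 < u.2) : lpp W u v = 0 := by
  unfold lpp
  rw [show {w : ℝ | ∃ (m : ℕ) (π : ℕ → ℤ × ℤ), π 0 = u ∧ π m = v ∧
    (∀ k < m, π (k + 1) = π k + (1, 0) ∨ π (k + 1) = π k + (0, 1)) ∧
    (∀ k ≤ m, (π k).2 ≤ (π k).1) ∧ w = ∑ k ∈ Finset.range (m + 1), W (π k)} = ∅ from ?_,
    Real.sSup_empty]
  ext w
  simp only [Set.mem_ofPred_eq, Set.mem_empty_iff_false, iff_false]
  rintro ⟨m, π, h0, -, -, h1, -⟩
  have := h1 0 (Nat.zero_le _)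
  rw [h0] at this
  omega

section

variable {Ω : Type} [MeasurableSpace Ω] {P : Measure Ω}

/-- The two families in one: the entries above the diagonal are not used otherwise. -/
def join (X : ℤ × ℤ → Ω → ℝ) (D : ℤ → Ω → ℝ) (z : ℤ × ℤ) : Ω → ℝ :=
  if z.2 = z.1 + 1 then D z.1 else X z

lemma join_env [IsProbabilityMeasure P] {X : ℤ × ℤ → Ω → ℝ} {D : ℤ → Ω → ℝ}
    (hX : ∀ z, Measurable (X z)) (hD : ∀ i, Measurable (D i))
    (hind : iIndepFun (fun j : (ℤ × ℤ) ⊕ ℤ => Sum.elim X D j) P)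
    (hXl : ∀ z, Measure.map (X z) P = expMeasure 1)
    (hDl : ∀ i, Measure.map (D i) P = expMeasure 1) : Env P (join X D) := by
  refine ⟨inferInstance, fun z => ?_, ?_, fun z => ?_⟩
  · unfold join
    split_ifs
    · exact hD _
    · exact hX _
  · let σ : ℤ × ℤ → (ℤ × ℤ) ⊕ ℤ := fun z => if z.2 = z.1 + 1 then Sum.inr z.1 else Sum.inl z
    have hσ : Function.Injective σ := by
      intro z z' h
      simp only [σ] at h
      split_ifs at h with h1 h2 h2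
      · have h3 : z.1 = z'.1 := Sum.inr_injective h
        exact Prod.ext h3 (by omega)
      · exact Sum.inl_injective h
    have h := hind.precomp hσ
    have e : (fun z => Sum.elim X D (σ z)) = join X D := by
      funext z
      simp only [σ, join]
      split_ifs <;> rfl
    rw [← e]
    exact h
  · unfold join
    split_ifs
    · exact hDl _
    · exact hXl _

omit [MeasurableSpace Ω] in
lemma lpp_join (X : ℤ × ℤ → Ω → ℝ) (D : ℤ → Ω → ℝ) (α : ℝ) (ω : Ω) {u v : ℤ × ℤ} (huv : u ≤ v) :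
    lpp (scaleDiag α (fun z => X z ω)) u v = L Hs (wgt (cH α) (join X D) ω) u v := by
  unfold lpp
  rw [fi_G _ _ _ huv]
  refine L_congr fun z _ hz => ?_
  have hz' : z.2 ≤ z.1 := hz
  have h2 : ¬ z.2 = z.1 + 1 := by omega
  unfold scaleDiag wgt cH join
  rw [if_neg h2]
  split_ifs
  · rfl
  · rw [one_mul]

omit [MeasurableSpace Ω] in
lemma lpp_join' (X : ℤ × ℤ → Ω → ℝ) (D : ℤ → Ω → ℝ) (α : ℝ) (ω : Ω) {u v : ℤ × ℤ} (huv : u ≤ v) :
    lpp (scaleDiag α (replaceDiag (fun z => X z ω) (fun i => D i ω))) u v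
      = L Hs (wgt (cH α) (resamp (join X D)) ω) u v := by
  unfold lpp
  rw [fi_G _ _ _ huv]
  refine L_congr fun z _ hz => ?_
  have hz' : z.2 ≤ z.1 := hz
  have h2 : ¬ z.2 = z.1 + 1 := by omega
  unfold scaleDiag replaceDiag wgt cH resamp join
  by_cases h1 : z.1 = z.2
  · simp only [h1, if_true]
  · simp only [if_neg h1, if_neg h2, one_mul]

end

/-- Let `X` be i.i.d. `Exp(1)` weights and let `D` be an independent sequence of i.i.d. `Exp(1)`
weights for the diagonal.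

(1) For all `κ`, `T` and `ε > 0` the probability that there are two lattice points `u ≤ v` with
`- T n ≤ u.2` and `v.2 ≤ T n` such that the passage values from `u` to `v` for the diagonal weights
`α⁻¹ X (i, i)` and `α⁻¹ D i` differ by more than `ε n ^ (1/3)` tends to zero, uniformly in the
parameters `α` with `|α - 1/2| ≤ κ n ^ (-1/3)`.

(2) For all `R`, `T` and `ε > 0` the probability that the rescaled passage values `ℒ^ρ_n (u; v)` and
their versions with resampled diagonal differ by more than `ε` for some `u = (x, s)` and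
`v = (y, t)` with `x, y ≥ 0`, `- T ≤ s`, `t ≤ T` tends to zero, uniformly in `ρ ∈ [-R, R]`. -/
theorem result (Ω : Type) [MeasurableSpace Ω] (P : Measure Ω) [IsProbabilityMeasure P]
    (X : ℤ × ℤ → Ω → ℝ) (D : ℤ → Ω → ℝ) (hX : ∀ z, Measurable (X z)) (hD : ∀ i, Measurable (D i))
    (hind : iIndepFun (fun j : (ℤ × ℤ) ⊕ ℤ => Sum.elim X D j) P)
    (hXl : ∀ z, Measure.map (X z) P = expMeasure 1)
    (hDl : ∀ i, Measure.map (D i) P = expMeasure 1) :
    (∀ κ T ε : ℝ, 0 < ε → Tendsto (fun n : ℕ =>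
      ⨆ α ∈ {α : ℝ | |α - 1 / 2| ≤ κ * (n : ℝ) ^ (-(1 : ℝ) / 3)},
        P {ω | ∃ u v : ℤ × ℤ, u ≤ v ∧ -(T * n) ≤ u.2 ∧ v.2 ≤ T * n ∧
          ε * (n : ℝ) ^ ((1 : ℝ) / 3) < |lpp (scaleDiag α (fun z => X z ω)) u v
            - lpp (scaleDiag α (replaceDiag (fun z => X z ω) (fun i => D i ω))) u v|})
      atTop (𝓝 0)) ∧
    (∀ R T ε : ℝ, 0 < ε → Tendsto (fun n : ℕ => ⨆ ρ ∈ Set.Icc (-R) R,
      P {ω | ∃ x s y t : ℝ, 0 ≤ x ∧ 0 ≤ y ∧ -T ≤ s ∧ t ≤ T ∧ pt n x s ≤ pt n y t ∧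
        ε < |rescaled n (scaleDiag (rate n ρ) (fun z => X z ω)) x s y t
          - rescaled n (scaleDiag (rate n ρ)
              (replaceDiag (fun z => X z ω) (fun i => D i ω))) x s y t|})
      atTop (𝓝 0)) := by
  have hE := join_env hX hD hind hXl hDl
  have part1 : ∀ κ T ε : ℝ, 0 < ε → Tendsto (fun n : ℕ =>
      ⨆ α ∈ {α : ℝ | |α - 1 / 2| ≤ κ * (n : ℝ) ^ (-(1 : ℝ) / 3)},
        P {ω | ∃ u v : ℤ × ℤ, u ≤ v ∧ -(T * n) ≤ u.2 ∧ v.2 ≤ T * n ∧
          ε * (n : ℝ) ^ ((1 : ℝ) / 3) < |lpp (scaleDiag α (fun z => X z ω)) u v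
            - lpp (scaleDiag α (replaceDiag (fun z => X z ω) (fun i => D i ω))) u v|})
      atTop (𝓝 0) := by
    intro κ T ε hε
    rw [ENNReal.tendsto_nhds_zero]
    intro δ hδ
    obtain ⟨d, hd0, hd⟩ : ∃ d : ℝ, 0 < d ∧ ENNReal.ofReal d ≤ δ := by
      by_cases h : δ = ⊤
      · exact ⟨1, one_pos, by rw [h]; exact le_top⟩
      · exact ⟨δ.toReal, ENNReal.toReal_pos hδ.ne' h, ENNReal.ofReal_toReal_le⟩
    obtain ⟨T₀, hT₀⟩ := exists_nat_ge (T + 1)
    obtain ⟨n1, H⟩ := strip κ T₀ ε hε d hd0 Ω P (join X D) hE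
    filter_upwards [eventually_ge_atTop n1, eventually_ge_atTop 1] with n hn hn1
    have hnR : (1 : ℝ) ≤ n := by exact_mod_cast hn1
    refine iSup₂_le fun α hα => ?_
    have hα' : |α - 1 / 2| ≤ |κ| * (n : ℝ) ^ (-(1 : ℝ) / 3) :=
      (show |α - 1 / 2| ≤ _ from hα).trans
        (mul_le_mul_of_nonneg_right (le_abs_self κ) (by positivity))
    refine le_trans (measure_mono ?_) ((H n hn α hα').trans hd)
    rintro ω ⟨u, v, huv, hu, hv, hlt⟩
    have huH : u.2 ≤ u.1 := by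
      by_contra hc
      have hc' : u.1 < u.2 := by omega
      rw [lpp_of_not hc', lpp_of_not hc', sub_self, abs_zero] at hlt
      have : 0 < ε * (n : ℝ) ^ ((1 : ℝ) / 3) := by positivity
      linarith
    refine ⟨u, v, huv, huH, ?_, ?_, ?_⟩
    · have h1 : ((-((T₀ : ℤ) * n) + 1 : ℤ) : ℝ) ≤ (u.2 : ℝ) := by
        push_cast
        nlinarith
      exact_mod_cast h1
    · have h1 : ((v.2 : ℤ) : ℝ) ≤ (((T₀ : ℤ) * n : ℤ) : ℝ) := by
        push_cast
        nlinarith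
      exact_mod_cast h1
    · rw [lpp_join X D α ω huv, lpp_join' X D α ω huv] at hlt
      exact hlt
  refine ⟨part1, fun R T ε hε => ?_⟩
  refine tendsto_of_tendsto_of_tendsto_of_le_of_le' tendsto_const_nhds
    (part1 R (T + 1) ε hε) (Eventually.of_forall fun n => bot_le) ?_
  filter_upwards [eventually_ge_atTop 1] with n hn
  have hnR : (1 : ℝ) ≤ n := by exact_mod_cast hn
  have hn0 : (0 : ℝ) < n := by linarith
  set c₀ : ℝ := (2 : ℝ) ^ (-(4 : ℝ) / 3) with hc₀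
  have hc₀pos : 0 < c₀ := Real.rpow_pos_of_pos (by norm_num) _
  have hc₀1 : c₀ ≤ 1 := Real.rpow_le_one_of_one_le_of_nonpos (by norm_num) (by norm_num)
  have hpos : (0 : ℝ) < (n : ℝ) ^ (-(1 : ℝ) / 3) := Real.rpow_pos_of_pos hn0 _
  have hpos' : (0 : ℝ) < (n : ℝ) ^ ((1 : ℝ) / 3) := Real.rpow_pos_of_pos hn0 _
  refine iSup₂_le fun ρ hρ => ?_
  have hmem : rate n ρ ∈ {α : ℝ | |α - 1 / 2| ≤ R * (n : ℝ) ^ (-(1 : ℝ) / 3)} := by
    show |rate n ρ - 1 / 2| ≤ _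
    have e : rate n ρ - 1 / 2 = -(c₀ * ρ * (n : ℝ) ^ (-(1 : ℝ) / 3)) := by
      unfold rate; ring
    rw [e, abs_neg, abs_mul, abs_mul, abs_of_pos hc₀pos, abs_of_pos hpos]
    refine mul_le_mul_of_nonneg_right ?_ hpos.le
    have h1 : |ρ| ≤ R := abs_le.2 hρ
    have h2 : 0 ≤ |ρ| := abs_nonneg _
    nlinarith
  refine le_iSup₂_of_le (rate n ρ) hmem (measure_mono ?_)
  rintro ω ⟨x, s, y, t, hx, hy, hs, ht, hle, hlt⟩
  refine ⟨pt n x s, pt n y t, hle, ?_, ?_, ?_⟩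
  · show -((T + 1) * n) ≤ ((⌊(n : ℝ) * s⌋ : ℤ) : ℝ)
    have h1 := Int.sub_one_lt_floor ((n : ℝ) * s)
    nlinarith
  · show ((⌊(n : ℝ) * t⌋ : ℤ) : ℝ) ≤ (T + 1) * n
    have h1 := Int.floor_le ((n : ℝ) * t)
    nlinarith
  · unfold rescaled at hlt
    have e1 : ∀ A B C : ℝ, c₀ * (n : ℝ) ^ (-(1 : ℝ) / 3) * (A - C)
        - c₀ * (n : ℝ) ^ (-(1 : ℝ) / 3) * (B - C) = c₀ * (n : ℝ) ^ (-(1 : ℝ) / 3) * (A - B) := by
      intro A B C; ring
    rw [e1, abs_mul, abs_mul, abs_of_pos hc₀pos, abs_of_pos hpos] at hlt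
    have hmul : (n : ℝ) ^ (-(1 : ℝ) / 3) * (n : ℝ) ^ ((1 : ℝ) / 3) = 1 := by
      rw [← Real.rpow_add hn0]
      norm_num
    set A := |lpp (scaleDiag (rate n ρ) (fun z => X z ω)) (pt n x s) (pt n y t)
      - lpp (scaleDiag (rate n ρ) (replaceDiag (fun z => X z ω) (fun i => D i ω))) (pt n x s)
        (pt n y t)| with hA
    have h2 : ε < (n : ℝ) ^ (-(1 : ℝ) / 3) * A := by
      refine lt_of_lt_of_le hlt ?_
      rw [mul_assoc]
      exact mul_le_of_le_one_left (by positivity) hc₀1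
    calc ε * (n : ℝ) ^ ((1 : ℝ) / 3)
        < ((n : ℝ) ^ (-(1 : ℝ) / 3) * A) * (n : ℝ) ^ ((1 : ℝ) / 3) :=
          mul_lt_mul_of_pos_right h2 hpos'
      _ = ((n : ℝ) ^ (-(1 : ℝ) / 3) * (n : ℝ) ^ ((1 : ℝ) / 3)) * A := by ring
      _ = A := by rw [hmul, one_mul]

end Pool.Agent.Results.MP_9957ef_pr.UniformInStrips
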